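import Pool.Agent.helper28.BQ.SpecC

/-!
# Project bq, module FTC: the types of three-entry characters are CM types
-/

set_option autoImplicit false

open scoped BigOperators ComplexConjugate
open NumberField

namespace BQ

/-- the root of unity attached to a class modulo `m`. -/
noncomputable def FTC_e (m : ℕ) (t : ZMod m) : ℂ :=
  Complex.exp (2 * Real.pi * Complex.I * (t.val : ℂ) / (m : ℂ))

theorem FTC_e_pow (m : ℕ) (t : ZMod m) :
    FTC_e m t = Complex.exp (2 * Real.pi * Complex.I / (m : ℂ)) ^ t.val := by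
  rw [FTC_e, ← Complex.exp_nat_mul]
  congr 1
  ring

theorem FTC_e_inj (m : ℕ) [NeZero m] {t t' : ZMod m} (h : FTC_e m t = FTC_e m t') : t = t' := by
  rw [FTC_e_pow, FTC_e_pow] at h
  exact ZMod.val_injective m
    ((Complex.isPrimitiveRoot_exp m (NeZero.ne m)).pow_inj (ZMod.val_lt t) (ZMod.val_lt t') h)

theorem FTC_val_neg (m : ℕ) [NeZero m] {t : ZMod m} (ht : t ≠ 0) : (-t).val = m - t.val := by
  rw [ZMod.neg_val, if_neg ht]

theorem FTC_norm (m : ℕ) [NeZero m] (t : ZMod m) : ‖FTC_e m t‖ = 1 := by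
  rw [FTC_e_pow, norm_pow, (Complex.isPrimitiveRoot_exp m (NeZero.ne m)).norm'_eq_one (NeZero.ne m),
    one_pow]

theorem FTC_conj (m : ℕ) [NeZero m] (t : ZMod m) : conj (FTC_e m t) = FTC_e m (-t) := by
  have h1 : FTC_e m t * FTC_e m (-t) = 1 := by
    rw [FTC_e_pow, FTC_e_pow, ← pow_add]
    by_cases ht : t = 0
    · simp [ht]
    · rw [FTC_val_neg m ht]
      have : t.val + (m - t.val) = m := by
        have := ZMod.val_lt t
        omega
      rw [this]
      exact (Complex.isPrimitiveRoot_exp m (NeZero.ne m)).pow_eq_one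
  have h2 := Complex.inv_eq_conj (FTC_norm m t)
  rw [← h2]
  exact inv_eq_of_mul_eq_one_right h1

theorem FTC_exists (m : ℕ) [NeZero m] (f : CyclotomicField m ℚ →+* ℂ) :
    ∃ t : (ZMod m)ˣ, f (IsCyclotomicExtension.zeta m ℚ (CyclotomicField m ℚ)) =
      FTC_e m (t : ZMod m) := by
  have h := (IsCyclotomicExtension.zeta_spec m ℚ (CyclotomicField m ℚ)).map_of_injective
    f.injective
  rw [Complex.isPrimitiveRoot_iff _ _ (NeZero.ne m)] at h
  obtain ⟨i, hi, hc, h⟩ := h
  refine ⟨ZMod.unitOfCoprime i hc, ?_⟩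
  rw [← h, FTC_e, ZMod.coe_unitOfCoprime, ZMod.val_natCast_of_lt hi]
  congr 1
  ring

theorem FTC_sum (m : ℕ) [NeZero m] {x y z : ZMod m} (hx : x ≠ 0) (hy : y ≠ 0) (hz : z ≠ 0)
    (h : x + y + z = 0) : x.val + y.val + z.val = m ∨ x.val + y.val + z.val = 2 * m := by
  have h1 : ((x.val + y.val + z.val : ℕ) : ZMod m) = 0 := by
    push_cast
    rw [ZMod.natCast_zmod_val, ZMod.natCast_zmod_val, ZMod.natCast_zmod_val, h]
  rw [ZMod.natCast_eq_zero_iff] at h1
  obtain ⟨k, hk⟩ := h1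
  have hx' : 0 < x.val := Nat.pos_of_ne_zero (by rwa [Ne, ZMod.val_eq_zero])
  have hx'' := ZMod.val_lt x
  have hy'' := ZMod.val_lt y
  have hz'' := ZMod.val_lt z
  have hk3 : k < 3 := by
    by_contra hcon
    have : m * 3 ≤ m * k := Nat.mul_le_mul_left m (by omega)
    omega
  interval_cases k
  · omega
  · left; omega
  · right; omega

/-- FTC. -/
theorem FTC : FTC_stmt := by
  intro m _ x y z hx hy hz hxyz f
  obtain ⟨t0, ht⟩ := FTC_exists m f
  set t : (ZMod m)ˣ := t0⁻¹ with htd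
  have hmul : ∀ a : ZMod m, a ≠ 0 → (t : ZMod m) * a ≠ 0 := by
    intro a ha h0
    exact ha ((Units.mul_right_eq_zero t).1 h0)
  have hs := FTC_sum m (hmul x hx) (hmul y hy) (hmul z hz) (by rw [← mul_add, ← mul_add, hxyz,
    mul_zero])
  have hneg : ∀ a : ZMod m, a ≠ 0 → ((-t : (ZMod m)ˣ) * a : ZMod m).val = m - (t * a : ZMod m).val := by
    intro a ha
    rw [Units.val_neg, neg_mul, FTC_val_neg m (hmul a ha)]
  have hmem : f ∈ ftype m x y z ↔
      ((t : ZMod m) * x).val + ((t : ZMod m) * y).val + ((t : ZMod m) * z).val = m := by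
    constructor
    · rintro ⟨t', ht', hsum⟩
      have h1 : (t0 : ZMod m) = t' := FTC_e_inj m (by rw [← ht, ht']; rfl)
      have h2 : t = t'⁻¹ := by rw [htd, Units.ext h1]
      rw [h2]
      exact hsum
    · intro hsum
      exact ⟨t0, ht, hsum⟩
  have hmem' : ComplexEmbedding.conjugate f ∈ ftype m x y z ↔
      (((-t : (ZMod m)ˣ) : ZMod m) * x).val + (((-t : (ZMod m)ˣ) : ZMod m) * y).val +
        (((-t : (ZMod m)ˣ) : ZMod m) * z).val = m := by
    have hc : ComplexEmbedding.conjugate f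
        (IsCyclotomicExtension.zeta m ℚ (CyclotomicField m ℚ)) =
          FTC_e m ((-t0 : (ZMod m)ˣ) : ZMod m) := by
      rw [ComplexEmbedding.conjugate_coe_eq, ht, FTC_conj, Units.val_neg]
    constructor
    · rintro ⟨t', ht', hsum⟩
      have h1 : ((-t0 : (ZMod m)ˣ) : ZMod m) = t' := FTC_e_inj m (by rw [← hc, ht']; rfl)
      have h2 : -t = t'⁻¹ := by rw [htd, ← Units.ext h1, inv_neg]
      rw [h2]
      exact hsum
    · intro hsum
      refine ⟨-t0, hc, ?_⟩
      rw [inv_neg]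
      exact hsum
  rw [hmem, hmem', hneg x hx, hneg y hy, hneg z hz]
  have h1 := ZMod.val_lt ((t : ZMod m) * x)
  have h2 := ZMod.val_lt ((t : ZMod m) * y)
  have h3 := ZMod.val_lt ((t : ZMod m) * z)
  have hm : 0 < m := Nat.pos_of_ne_zero (NeZero.ne m)
  omega

end BQ
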