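import Pool.Agent.helper35.BQ.Spec
import Pool.Agent.helper64.NQ.Spec

/-! # SPQ: Q1 for blocks with `SupT` -/

set_option autoImplicit false

open Pool.Agent.helper58.DC Pool.Agent.DI Pool.Agent.DR Pool.Agent.NQ

namespace Pool.Agent.BQ

theorem SPQ (hZRO : ZRO_stmt) (hDWN : DWN_stmt) (hRE : RE_stmt) (hFTW : FTW_stmt) : SPQ_stmt := by
  intro p _ M hM hpM 𝒳 hCl hO G E A _ _ _ _ _ X hE hPr hop χ hχ hPD hS d U
  have hfA : Finite A := Finite.of_surjective X.proj X.proj_surjective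
  refine hDWN A (fun V => altSum X p M χ d V) (AI X M χ) (AB X M χ) ?_ ?_ U
  · intro V hV
    exact (hZRO G E A X p M hM hpM χ hχ d V hV).2
  · intro V h1 h2
    obtain ⟨W, hW, hT, hcyc⟩ := hS V h1 h2
    refine ⟨W, hW, ?_⟩
    rw [← hRE G E A X p M χ hχ d W]
    refine hFTW p M hM hpM 𝒳 hCl hO G (W.comap X.proj) W (resE X W) (hCl.sub E _ hE) hT ?_
      hcyc hop χ hχ hPD d ⊤
    rcases hPr with h | h
    · exact Or.inl h
    · exact Or.inr fun h3 => h (h3.trans (Subgroup.card_subgroup_dvd_card W))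

end Pool.Agent.BQ
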